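import Pool.Agent.Y141.Art.B

open IsDedekindDomain NumberField Polynomial

namespace Pool.Agent.Y141.Art

theorem artin_cyc {F K L : Type} [Field F] [NumberField F] [IsCyclotomicExtension {3} ℚ F]
    [Field K] [NumberField K] [Field L] [NumberField L] [Algebra F K] [Algebra K L] [Algebra F L]
    [IsScalarTower F K L] [IsGalois F K] (m : ℕ) [NeZero m] [IsCyclotomicExtension {m} F L]
    (hm : ∀ q : ℕ, q.Prime → q ∣ m → q % 3 = 1) :
    ∃ art : (𝓞 F ⧸ Ideal.span {(m : 𝓞 F)})ˣ →* Gal(K/F), Function.Surjective art ∧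
      (∀ v : HeightOneSpectrum (𝓞 K), (m : 𝓞 K) ∉ v.asIdeal →
        Algebra.IsUnramifiedAt (𝓞 F) v.asIdeal) ∧
      (∀ π : 𝓞 F, Prime π → ∀ u : (𝓞 F ⧸ Ideal.span {(m : 𝓞 F)})ˣ,
        (u : 𝓞 F ⧸ Ideal.span {(m : 𝓞 F)}) = Ideal.Quotient.mk _ π →
        ∀ v : HeightOneSpectrum (𝓞 K), algebraMap (𝓞 F) (𝓞 K) π ∈ v.asIdeal →
          ∀ x : 𝓞 K, (art u) • x - x ^ Nat.card (𝓞 F ⧸ Ideal.span {π}) ∈ v.asIdeal) := by
  classical
  have h3 : Nat.Coprime 3 m := by
    rw [Nat.Prime.coprime_iff_not_dvd Nat.prime_three]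
    intro h
    have := hm 3 Nat.prime_three h
    omega
  have hz := IsCyclotomicExtension.zeta_spec m F L
  have hgal : IsGalois F L := IsCyclotomicExtension.isGalois {m} F L
  let e : Gal(L/F) ≃* (ZMod m)ˣ := MulEquiv.ofBijective (hz.autToPow F) (autToPow_bij m h3 hz)
  let art : (𝓞 F ⧸ Ideal.span {(m : 𝓞 F)})ˣ →* Gal(K/F) :=
    (AlgEquiv.restrictNormalHom K).comp (e.symm.toMonoidHom.comp (Units.map (nq F m)))
  refine ⟨art, ?_, ?_, ?_⟩
  · have h1 : Function.Surjective (AlgEquiv.restrictNormalHom K : Gal(L/F) →* Gal(K/F)) :=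
      AlgEquiv.restrictNormalHom_surjective L
    exact h1.comp (e.symm.surjective.comp (nq_surj m (NeZero.ne m) hm))
  · intro v hv
    obtain ⟨w, hw, hwv⟩ := Ideal.exists_maximal_ideal_liesOver_of_isIntegral v.asIdeal (S := 𝓞 L)
    have hwp : w.IsPrime := hw.isPrime
    have hmw : (m : 𝓞 L) ∉ w := by
      intro h
      apply hv
      rw [hwv.over]
      change algebraMap (𝓞 K) (𝓞 L) (m : 𝓞 K) ∈ w
      simpa using h
    have := unram_L (F := F) m w hmw
    exact Algebra.IsUnramifiedAt.of_liesOver (𝓞 F) v.asIdeal w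
  · intro p hp u hu v hv x
    have hpm : IsUnit (nm F m p) := by
      rw [← nq_mk, ← hu]
      exact (Units.map (nq F m) u).isUnit
    obtain ⟨σ, h1, h2⟩ := frob (K := K) m hz p hp hpm v hv
    have h4 : Units.map (nq F m) u = e σ := by
      apply Units.ext
      rw [Units.coe_map]
      change nq F m (u : _) = ((hz.autToPow F σ : (ZMod m)ˣ) : ZMod m)
      rw [h1, hu, nq_mk]
    have h5 : art u = AlgEquiv.restrictNormalHom K σ := by
      change AlgEquiv.restrictNormalHom K (e.symm (Units.map (nq F m) u)) = _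
      rw [h4, MulEquiv.symm_apply_apply]
    rw [h5]
    exact h2 x

end Pool.Agent.Y141.Art
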