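import Mathlib

open IsDedekindDomain NumberField Polynomial

namespace Pool.Agent.Y141.Art

lemma exists_root_prime (p : ℕ) (hp : p.Prime) (h3 : p % 3 = 1) :
    ∃ s : ZMod p, s ^ 2 + s + 1 = 0 := by
  have : Fact p.Prime := ⟨hp⟩
  have : Fact (Nat.Prime 3) := ⟨Nat.prime_three⟩
  have hcard : 3 ∣ Fintype.card (ZMod p)ˣ := by
    rw [ZMod.card_units]
    have := hp.one_lt
    omega
  obtain ⟨g, hg⟩ := exists_prime_orderOf_dvd_card 3 hcard
  have h1 : (g : ZMod p) ^ 3 = 1 := by
    have := pow_orderOf_eq_one g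
    rw [hg] at this
    have h := congrArg (Units.val) this
    rwa [Units.val_pow_eq_pow_val, Units.val_one] at h
  have h2 : (g : ZMod p) ≠ 1 := by
    intro h
    have : g = 1 := Units.ext h
    rw [this, orderOf_one] at hg
    norm_num at hg
  refine ⟨g, ?_⟩
  have : ((g : ZMod p) - 1) * ((g : ZMod p) ^ 2 + g + 1) = 0 := by
    ring_nf
    rw [h1]
    ring
  rcases mul_eq_zero.mp this with h | h
  · exact absurd (sub_eq_zero.mp h) h2
  · exact h

lemma exists_root (m : ℕ) (hm : ∀ q : ℕ, q.Prime → q ∣ m → q % 3 = 1) (hm0 : m ≠ 0) :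
    ∃ r : ℤ, (m : ℤ) ∣ r ^ 2 + r + 1 := by
  induction m using induction_on_primes with
  | zero => exact absurd rfl hm0
  | one => exact ⟨0, by simp⟩
  | prime_mul p n hp ih =>
    have hn0 : n ≠ 0 := by
      rintro rfl
      simp at hm0
    obtain ⟨r, c, hc⟩ := ih (fun q hq hd => hm q hq (hd.mul_left p)) hn0
    have hp3 : p % 3 = 1 := hm p hp (Dvd.intro n rfl)
    have : Fact p.Prime := ⟨hp⟩
    -- it suffices to find t mod p
    suffices H : ∃ t : ZMod p, (c : ZMod p) + t * (2 * r + 1) + n * t ^ 2 = 0 by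
      obtain ⟨t, ht⟩ := H
      obtain ⟨t, rfl⟩ := ZMod.intCast_surjective t
      have hd : (p : ℤ) ∣ c + t * (2 * r + 1) + n * t ^ 2 := by
        rw [← ZMod.intCast_zmod_eq_zero_iff_dvd]
        push_cast
        exact ht
      refine ⟨r + n * t, ?_⟩
      have : (r + n * t) ^ 2 + (r + n * t) + 1 = n * (c + t * (2 * r + 1) + n * t ^ 2) := by
        linear_combination hc
      rw [this]
      push_cast
      rw [mul_comm]
      exact mul_dvd_mul_left _ hd
    by_cases hpn : (n : ZMod p) = 0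
    · have h2 : (2 * r + 1 : ZMod p) ≠ 0 := by
        intro h
        have h4 : ((2 * r + 1 : ℤ) : ZMod p) = 0 := by push_cast; exact h
        have h5 : ((r ^ 2 + r + 1 : ℤ) : ZMod p) = 0 := by
          rw [hc]; push_cast; rw [hpn]; ring
        have h6 : ((3 : ℕ) : ZMod p) = 0 := by
          push_cast at h4 h5 ⊢
          linear_combination 4 * h5 - (2 * r + 1) * h4
        rw [ZMod.natCast_eq_zero_iff] at h6
        have := (Nat.prime_dvd_prime_iff_eq hp Nat.prime_three).mp h6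
        omega
      refine ⟨- c / (2 * r + 1), ?_⟩
      rw [hpn]
      field_simp
      ring
    · obtain ⟨s, hs⟩ := exists_root_prime p hp hp3
      refine ⟨(s - r) / n, ?_⟩
      have hc' : ((r : ZMod p) ^ 2 + r + 1) = n * c := by
        have := congrArg (Int.cast : ℤ → ZMod p) hc
        push_cast at this
        exact this
      have : (n : ZMod p) * ((c : ZMod p) + (s - r) / n * (2 * r + 1) + n * ((s - r) / n) ^ 2) = 0 := by
        field_simp
        linear_combination hs - hc'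
      rcases mul_eq_zero.mp this with h | h
      · exact absurd h hpn
      · exact h

section norm

variable {F : Type} [Field F] [NumberField F]

/-- the norm modulo m -/
noncomputable def nm (F : Type) [Field F] [NumberField F] (m : ℕ) : 𝓞 F →* ZMod m :=
  (Int.castRingHom (ZMod m)).toMonoidHom.comp (Algebra.norm ℤ)

lemma nm_apply (m : ℕ) (a : 𝓞 F) : nm F m a = ((Algebra.norm ℤ a : ℤ) : ZMod m) := rfl

lemma nm_add_mul (m : ℕ) (a b : 𝓞 F) : nm F m (a + m * b) = nm F m a := by
  classical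
  rw [nm_apply, nm_apply]
  let B := RingOfIntegers.basis F
  rw [Algebra.norm_eq_matrix_det B, Algebra.norm_eq_matrix_det B]
  have h1 : ∀ M : Matrix (Module.Free.ChooseBasisIndex ℤ (𝓞 F))
      (Module.Free.ChooseBasisIndex ℤ (𝓞 F)) ℤ, ((M.det : ℤ) : ZMod m) =
      (M.map (Int.castRingHom (ZMod m))).det := fun M => by
    have := RingHom.map_det (Int.castRingHom (ZMod m)) M
    simpa using this
  rw [h1, h1]
  congr 1
  ext i j
  simp only [Matrix.map_apply, map_add, map_mul, map_natCast, Matrix.add_apply]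
  have : ((m : Matrix (Module.Free.ChooseBasisIndex ℤ (𝓞 F)) (Module.Free.ChooseBasisIndex ℤ (𝓞 F)) ℤ) *
      (Algebra.leftMulMatrix B) b) i j = m * (Algebra.leftMulMatrix B b) i j := by
    rw [← nsmul_eq_mul, Matrix.smul_apply]
    simp
  rw [this]
  simp

lemma nm_congr (m : ℕ) {a b : 𝓞 F} (h : Ideal.Quotient.mk (Ideal.span {(m : 𝓞 F)}) a =
    Ideal.Quotient.mk (Ideal.span {(m : 𝓞 F)}) b) : nm F m a = nm F m b := by
  rw [Ideal.Quotient.eq, Ideal.mem_span_singleton] at h
  obtain ⟨c, hc⟩ := h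
  have : a = b + m * c := by rw [← hc]; ring
  rw [this, nm_add_mul]

/-- the norm on the quotient -/
noncomputable def nq (F : Type) [Field F] [NumberField F] (m : ℕ) :
    (𝓞 F ⧸ Ideal.span {(m : 𝓞 F)}) →* ZMod m where
  toFun x := nm F m (Ideal.Quotient.mk_surjective x).choose
  map_one' := by
    rw [nm_congr m (b := 1), map_one]
    rw [(Ideal.Quotient.mk_surjective _).choose_spec, map_one]
  map_mul' x y := by
    rw [← map_mul]
    apply nm_congr
    rw [map_mul, (Ideal.Quotient.mk_surjective (x * y)).choose_spec,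
      (Ideal.Quotient.mk_surjective x).choose_spec, (Ideal.Quotient.mk_surjective y).choose_spec]

lemma nq_mk (m : ℕ) (a : 𝓞 F) : nq F m (Ideal.Quotient.mk _ a) = nm F m a := by
  apply nm_congr
  rw [(Ideal.Quotient.mk_surjective _).choose_spec]

end norm

section eis

variable {F : Type} [Field F] [NumberField F] [IsCyclotomicExtension {3} ℚ F]

/-- the cube root of unity -/
noncomputable def om (F : Type) [Field F] [NumberField F] [IsCyclotomicExtension {3} ℚ F] : 𝓞 F :=
  (IsCyclotomicExtension.zeta_spec 3 ℚ F).toInteger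

lemma om_prim : IsPrimitiveRoot (om F) 3 :=
  (IsCyclotomicExtension.zeta_spec 3 ℚ F).toInteger_isPrimitiveRoot

lemma om_eq : (om F) ^ 2 + om F + 1 = 0 := by
  have h := (om_prim (F := F)).geom_sum_eq_zero (by norm_num)
  simp only [Finset.sum_range_succ, Finset.sum_range_zero] at h
  linear_combination h

lemma exists_basis : ∃ B : Module.Basis (Fin 2) ℤ (𝓞 F), B 0 = 1 ∧ B 1 = om F := by
  let pb := (IsCyclotomicExtension.zeta_spec 3 ℚ F).integralPowerBasis
  have hgen : pb.gen = om F := by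
    simp [pb, om]
  have hdim : pb.dim = 2 := by
    simp [pb]
    rfl
  refine ⟨pb.basis.reindex (finCongr hdim), ?_, ?_⟩
  · simp
  · simp [hgen]

lemma norm_eq (x y : ℤ) : Algebra.norm ℤ ((x : 𝓞 F) + y * om F) = x ^ 2 - x * y + y ^ 2 := by
  obtain ⟨B, h0, h1⟩ := exists_basis (F := F)
  rw [Algebra.norm_eq_matrix_det B, Matrix.det_fin_two]
  have e0 : ((x : 𝓞 F) + y * om F) * B 0 = x • B 0 + y • B 1 := by
    rw [h0, h1]; simp
  have e1 : ((x : 𝓞 F) + y * om F) * B 1 = (-y) • B 0 + (x - y) • B 1 := by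
    rw [h0, h1]
    simp only [zsmul_eq_mul, Int.cast_neg, Int.cast_sub]
    linear_combination (y : 𝓞 F) * om_eq (F := F)
  simp only [Algebra.leftMulMatrix_eq_repr_mul, e0, e1]
  simp only [map_add, map_smul, Module.Basis.repr_self, Finsupp.add_apply, Finsupp.smul_apply]
  simp
  ring

lemma norm_nonneg' (a : 𝓞 F) : 0 ≤ Algebra.norm ℤ a := by
  obtain ⟨B, h0, h1⟩ := exists_basis (F := F)
  have : a = ((B.repr a 0 : ℤ) : 𝓞 F) + ((B.repr a 1 : ℤ) : 𝓞 F) * om F := by
    conv_lhs => rw [← B.sum_repr a]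
    rw [Fin.sum_univ_two, h0, h1]
    simp
  rw [this, norm_eq]
  nlinarith [sq_nonneg (2 * B.repr a 0 - B.repr a 1), sq_nonneg (B.repr a 1)]

lemma nq_surj (m : ℕ) (hm0 : m ≠ 0) (hm : ∀ q : ℕ, q.Prime → q ∣ m → q % 3 = 1) :
    Function.Surjective (Units.map (nq F m)) := by
  intro c
  obtain ⟨r, hr⟩ := exists_root m hm hm0
  have hr' : (r : ZMod m) ^ 2 + r + 1 = 0 := by
    have := (ZMod.intCast_zmod_eq_zero_iff_dvd (r ^ 2 + r + 1) m).mpr hr
    push_cast at this
    exact this
  have h3 : IsUnit ((3 : ℕ) : ZMod m) := by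
    rw [ZMod.isUnit_iff_coprime]
    rw [Nat.Prime.coprime_iff_not_dvd Nat.prime_three]
    intro h
    have := hm 3 Nat.prime_three h
    omega
  obtain ⟨d, hd⟩ := h3
  -- the inverse of 2r+1 is -(2r+1)/3
  have hinv : (2 * (r : ZMod m) + 1) * (-(2 * r + 1) * (d⁻¹ : (ZMod m)ˣ)) = 1 := by
    have : ((d : ZMod m)) * (d⁻¹ : (ZMod m)ˣ) = 1 := by simp
    rw [hd] at this
    push_cast at this
    linear_combination (-4 * (d⁻¹ : (ZMod m)ˣ)) * hr' + this
  obtain ⟨y, hy⟩ := ZMod.intCast_surjective ((1 - (c : ZMod m)) * (-(2 * (r : ZMod m) + 1) * ((d⁻¹ : (ZMod m)ˣ) : ZMod m)))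
  obtain ⟨x, hx⟩ := ZMod.intCast_surjective (1 - (y : ZMod m) * (r : ZMod m))
  have hxy : ((x : ZMod m) ^ 2 - x * y + y ^ 2) = c := by
    have e1 : (x : ZMod m) + y * r = 1 := by rw [hx]; ring
    have e2 : (y : ZMod m) * (2 * r + 1) = 1 - c := by
      rw [hy]; linear_combination (1 - (c : ZMod m)) * hinv
    have e3 : (x : ZMod m) + y * (-1 - r) = c := by
      linear_combination e1 - e2
    linear_combination (x + y * (-1 - r)) * e1 + e3 + y ^ 2 * hr'
  let Q := Ideal.Quotient.mk (Ideal.span {(m : 𝓞 F)})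
  have hn : nm F m ((x : 𝓞 F) + y * om F) = c := by
    rw [nm_apply, norm_eq]
    push_cast
    exact hxy
  -- the element is a unit
  have hu : IsUnit (Q ((x : 𝓞 F) + y * om F)) := by
    obtain ⟨c', hc'⟩ := ZMod.intCast_surjective ((c⁻¹ : (ZMod m)ˣ) : ZMod m)
    refine IsUnit.of_mul_eq_one (Q (((x : 𝓞 F) + y * (om F) ^ 2) * c')) ?_
    rw [← map_mul, ← map_one Q, Ideal.Quotient.eq, Ideal.mem_span_singleton]
    have h1 : (m : ℤ) ∣ (x ^ 2 - x * y + y ^ 2) * c' - 1 := by
      rw [← ZMod.intCast_zmod_eq_zero_iff_dvd]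
      push_cast
      rw [hxy, hc']
      simp
    obtain ⟨k, hk⟩ := h1
    refine ⟨(k : 𝓞 F), ?_⟩
    have hk' : (((x : 𝓞 F) ^ 2 - x * y + y ^ 2) * c' - 1) = m * k := by
      have := congrArg (Int.cast : ℤ → 𝓞 F) hk
      push_cast at this
      exact this
    rw [← hk']
    linear_combination ((x * y * c' + y ^ 2 * c' * (om F - 1)) * om_eq (F := F))
  obtain ⟨u, hu⟩ := hu
  refine ⟨u, Units.ext ?_⟩
  rw [Units.coe_map]
  change nq F m (u : _) = c
  rw [hu, nq_mk, hn]

end eis

end Pool.Agent.Y141.Art
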