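import Pool.Agent.Y141.Art.A

open IsDedekindDomain NumberField Polynomial

namespace Pool.Agent.Y141.Art

variable {F L : Type} [Field F] [NumberField F] [IsCyclotomicExtension {3} ℚ F]
  [Field L] [NumberField L] [Algebra F L]

lemma cyc_lcm (m : ℕ) [NeZero m] [IsCyclotomicExtension {m} F L] :
    IsCyclotomicExtension {Nat.lcm 3 m} ℚ L := by
  have h1 : IsCyclotomicExtension ({3} ∪ {m}) ℚ L :=
    IsCyclotomicExtension.trans {3} {m} ℚ F L (FaithfulSMul.algebraMap_injective F L)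
  rw [IsCyclotomicExtension.iff_adjoin_eq_top] at h1 ⊢
  obtain ⟨h2, h3⟩ := h1
  refine ⟨?_, ?_⟩
  · intro n hn hn0
    rw [Set.mem_singleton_iff] at hn
    subst hn
    obtain ⟨a, ha⟩ := h2 3 (Set.mem_union_left _ (Set.mem_singleton 3)) (by norm_num)
    obtain ⟨b, hb⟩ := h2 m (Set.mem_union_right _ (Set.mem_singleton m)) (NeZero.ne m)
    exact ⟨_, ha.pow_mul_pow_lcm hb (by norm_num) (NeZero.ne m)⟩
  · rw [_root_.eq_top_iff, ← h3]
    refine Algebra.adjoin_mono ?_
    rintro x ⟨n, hn, hn0, hx⟩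
    refine ⟨Nat.lcm 3 m, Set.mem_singleton _, Nat.lcm_ne_zero (by norm_num) (NeZero.ne m), ?_⟩
    have : n ∣ Nat.lcm 3 m := by
      rcases hn with hn | hn
      · rw [Set.mem_singleton_iff] at hn; subst hn; exact Nat.dvd_lcm_left _ _
      · rw [Set.mem_singleton_iff] at hn; subst hn; exact Nat.dvd_lcm_right _ _
    obtain ⟨k, hk⟩ := this
    rw [hk, pow_mul, hx, one_pow]

lemma finrank_eq (m : ℕ) [NeZero m] [IsCyclotomicExtension {m} F L] (h3 : Nat.Coprime 3 m) :
    Module.finrank F L = m.totient := by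
  have h1 := cyc_lcm (F := F) (L := L) m
  have : NeZero (Nat.lcm 3 m) := ⟨Nat.lcm_ne_zero (by norm_num) (NeZero.ne m)⟩
  have h2 : Module.finrank ℚ L = (Nat.lcm 3 m).totient :=
    IsCyclotomicExtension.Rat.finrank _ L
  have h4 : Module.finrank ℚ F = (3 : ℕ).totient :=
    IsCyclotomicExtension.Rat.finrank _ F
  have h5 := Module.finrank_mul_finrank ℚ F L
  rw [h2, h4, h3.lcm_eq_mul, Nat.totient_mul h3] at h5
  exact Nat.eq_of_mul_eq_mul_left (Nat.totient_pos.mpr (by norm_num)) h5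

/-- Galois group of the cyclotomic extension -/
lemma autToPow_bij (m : ℕ) [NeZero m] [IsCyclotomicExtension {m} F L] (h3 : Nat.Coprime 3 m)
    {z : L} (hz : IsPrimitiveRoot z m) : Function.Bijective (hz.autToPow F) := by
  have hg : IsGalois F L := IsCyclotomicExtension.isGalois {m} F L
  rw [Nat.bijective_iff_injective_and_card]
  refine ⟨hz.autToPow_injective F, ?_⟩
  rw [IsGalois.card_aut_eq_finrank, finrank_eq m h3, Nat.card_eq_fintype_card,
    ZMod.card_units_eq_totient]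

omit [IsCyclotomicExtension {3} ℚ F] in
/-- unramified outside m -/
lemma unram_L (m : ℕ) [NeZero m] [IsCyclotomicExtension {m} F L]
    (P : Ideal (𝓞 L)) [P.IsPrime] (hP : (m : 𝓞 L) ∉ P) :
    Algebra.IsUnramifiedAt (𝓞 F) P := by
  rw [← not_dvd_differentIdeal_iff]
  intro hdvd
  apply hP
  let z := IsCyclotomicExtension.zeta m F L
  have hz : IsPrimitiveRoot z m := IsCyclotomicExtension.zeta_spec m F L
  let Z : 𝓞 L := hz.toInteger
  have hZ : algebraMap (𝓞 L) L Z = z := rfl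
  have htop : Algebra.adjoin F {algebraMap (𝓞 L) L Z} = ⊤ := by
    rw [hZ]
    exact IsCyclotomicExtension.adjoin_primitive_root_eq_top hz
  have hmem := aeval_derivative_mem_differentIdeal (𝓞 F) F L Z htop
  have hin : aeval Z (derivative (minpoly (𝓞 F) Z)) ∈ P := (Ideal.dvd_iff_le.mp hdvd) hmem
  -- minpoly divides X^m - 1
  have hZm : Z ^ m = 1 := by
    apply RingOfIntegers.ext
    have := hz.pow_eq_one
    simpa [hZ] using this
  have hdiv : minpoly (𝓞 F) Z ∣ X ^ m - 1 := by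
    apply minpoly.isIntegrallyClosed_dvd
    · exact Algebra.IsIntegral.isIntegral Z
    · simp [hZm]
  obtain ⟨g, hg⟩ := hdiv
  have hder : aeval Z (derivative (X ^ m - 1 : (𝓞 F)[X])) =
      aeval Z (derivative (minpoly (𝓞 F) Z)) * aeval Z g := by
    rw [hg, derivative_mul, map_add, map_mul, map_mul, minpoly.aeval]
    ring
  have h1 : (m : 𝓞 L) * Z ^ (m - 1) ∈ P := by
    have : (m : 𝓞 L) * Z ^ (m - 1) = aeval Z (derivative (X ^ m - 1 : (𝓞 F)[X])) := by
      simp [derivative_X_pow]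
    rw [this, hder]
    exact P.mul_mem_right _ hin
  have h2 : (m : 𝓞 L) = (m : 𝓞 L) * Z ^ (m - 1) * Z := by
    rw [mul_assoc, ← pow_succ, Nat.sub_add_cancel (NeZero.one_le), hZm, mul_one]
  rw [h2]
  exact P.mul_mem_right _ h1

section frob

variable {K : Type} [Field K] [NumberField K] [Algebra F K] [Algebra K L] [IsScalarTower F K L]
  [IsGalois F K]

/-- Frobenius at a prime of `L`, restricted to `K`. -/
lemma frob (m : ℕ) [NeZero m] [IsCyclotomicExtension {m} F L] [IsGalois F L]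
    {z : L} (hz : IsPrimitiveRoot z m) (p : 𝓞 F) (hp : Prime p)
    (hpm : IsUnit (nm F m p))
    (v : HeightOneSpectrum (𝓞 K)) (hv : algebraMap (𝓞 F) (𝓞 K) p ∈ v.asIdeal) :
    ∃ σ : Gal(L/F), ((hz.autToPow F σ : (ZMod m)ˣ) : ZMod m) = nm F m p ∧
      ∀ x : 𝓞 K, (AlgEquiv.restrictNormalHom K σ) • x - x ^ Nat.card (𝓞 F ⧸ Ideal.span {p}) ∈
        v.asIdeal := by
  classical
  obtain ⟨w, hw, hwv⟩ := Ideal.exists_maximal_ideal_liesOver_of_isIntegral v.asIdeal (S := 𝓞 L)
  have hwp : w.IsPrime := hw.isPrime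
  -- the prime under w
  have hpw : algebraMap (𝓞 F) (𝓞 L) p ∈ w := by
    rw [IsScalarTower.algebraMap_apply (𝓞 F) (𝓞 K) (𝓞 L)]
    have : algebraMap (𝓞 F) (𝓞 K) p ∈ w.under (𝓞 K) := by
      rw [← hwv.over]; exact hv
    exact this
  have hmax : (Ideal.span {p}).IsMaximal := by
    have h1 : (Ideal.span {p}).IsPrime := (Ideal.span_singleton_prime hp.ne_zero).mpr hp
    exact h1.isMaximal (by simpa using hp.ne_zero)
  have hunder : w.under (𝓞 F) = Ideal.span {p} := by
    refine (hmax.eq_of_le (Ideal.IsPrime.ne_top inferInstance) ?_).symm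
    rw [Ideal.span_singleton_le_iff_mem]
    exact hpw
  set q := Nat.card (𝓞 F ⧸ Ideal.span {p}) with hq
  have hqn : ((q : ℕ) : ZMod m) = nm F m p := by
    have h1 : q = (Algebra.norm ℤ p).natAbs := by
      rw [← Ideal.absNorm_span_singleton, Ideal.absNorm_apply, Submodule.cardQuot_apply]
    have h2 : ((q : ℕ) : ℤ) = Algebra.norm ℤ p := by
      rw [h1, Int.natAbs_of_nonneg (norm_nonneg' p)]
    rw [nm_apply, ← h2]
    simp
  have hqw : ((q : ℕ) : 𝓞 L) ∈ w := by
    have h1 : ((q : ℕ) : 𝓞 F) ∈ Ideal.span {p} := by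
      have := Ideal.absNorm_mem (Ideal.span {p})
      rw [Ideal.absNorm_apply, Submodule.cardQuot_apply] at this
      exact this
    rw [← hunder] at h1
    have h2 : algebraMap (𝓞 F) (𝓞 L) ((q : ℕ) : 𝓞 F) ∈ w := h1
    simpa using h2
  have hmw : ((m : ℕ) : 𝓞 L) ∉ w := by
    intro hmw
    have hcop : Nat.Coprime q m := by
      rw [← ZMod.isUnit_iff_coprime, hqn]
      exact hpm
    have h1 : (1 : 𝓞 L) ∈ w := by
      obtain ⟨a, b, hab⟩ := (Nat.isCoprime_iff_coprime.mpr hcop)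
      have h2 : ((a : 𝓞 L) * (q : 𝓞 L) + (b : 𝓞 L) * (m : 𝓞 L)) = 1 := by
        have := congrArg (Int.cast : ℤ → 𝓞 L) hab
        push_cast at this
        exact this
      rw [← h2]
      exact w.add_mem (w.mul_mem_left _ hqw) (w.mul_mem_left _ hmw)
    exact hwp.ne_top ((Ideal.eq_top_iff_one _).mpr h1)
  have hwbot : w ≠ ⊥ := by
    intro h
    rw [h, Ideal.mem_bot] at hqw
    have h3 : q ≠ 0 := by
      rw [hq]
      have : Finite (𝓞 F ⧸ Ideal.span {p}) := Ideal.finiteQuotientOfFreeOfNeBot _ (by simpa using hp.ne_zero)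
      exact Nat.card_pos.ne'
    exact h3 (by exact_mod_cast hqw)
  have hfin : Finite (𝓞 L ⧸ w) := Ideal.finiteQuotientOfFreeOfNeBot _ hwbot
  obtain ⟨σ, hσ⟩ := IsArithFrobAt.exists_of_isInvariant (𝓞 F) Gal(L/F) w
  have hσ' : ∀ x : 𝓞 L, σ • x - x ^ q ∈ w := by
    intro x
    have := hσ x
    rw [hunder] at this
    exact this
  refine ⟨σ, ?_, ?_⟩
  · have hz' : algebraMap (𝓞 L) L hz.toInteger = z := rfl
    have h1 := AlgHom.IsArithFrobAt.apply_of_pow_eq_one hσ (ζ := hz.toInteger) (m := m) (by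
      apply RingOfIntegers.ext
      have := hz.pow_eq_one
      simpa [hz'] using this) hmw
    rw [hunder] at h1
    have h2 : σ z = z ^ q := by
      have h0 := congrArg (algebraMap (𝓞 L) L) h1
      rw [map_pow, hz'] at h0
      rw [← hq] at h0
      rw [← h0]
      rfl
    rw [← hz.autToPow_spec F σ] at h2
    have h4 : z ^ q = z ^ (q % m) := by
      conv_lhs => rw [← Nat.mod_add_div q m, pow_add, pow_mul, hz.pow_eq_one, one_pow, mul_one]
    rw [h4] at h2
    have h3 := hz.pow_inj (ZMod.val_lt _) (Nat.mod_lt _ (NeZero.pos m)) h2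
    have h5 : (((hz.autToPow F σ : (ZMod m)ˣ) : ZMod m).val : ZMod m) = ((q % m : ℕ) : ZMod m) := by
      rw [h3]
    rw [ZMod.natCast_val, ZMod.cast_id', id, ZMod.natCast_mod] at h5
    rw [h5, hqn]
  · intro x
    have hmem : algebraMap (𝓞 K) (𝓞 L) ((AlgEquiv.restrictNormalHom K σ) • x - x ^ q) ∈ w := by
      have h1 := hσ' (algebraMap (𝓞 K) (𝓞 L) x)
      have h2 : algebraMap (𝓞 K) (𝓞 L) ((AlgEquiv.restrictNormalHom K σ) • x - x ^ q) =
          σ • (algebraMap (𝓞 K) (𝓞 L) x) - (algebraMap (𝓞 K) (𝓞 L) x) ^ q := by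
        rw [map_sub, map_pow]
        congr 1
        apply RingOfIntegers.ext
        have := AlgEquiv.restrictNormal_commutes σ K (x : K)
        exact this
      rw [h2]
      exact h1
    have : (AlgEquiv.restrictNormalHom K σ) • x - x ^ q ∈ w.under (𝓞 K) := hmem
    rw [← hwv.over] at this
    exact this

end frob

end Pool.Agent.Y141.Art
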